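import Mathlib
import Pool.Agent.X142.PL.Gen

set_option autoImplicit false

namespace Pool.Agent.Results.MP_528be1_nt.PolylogarithmArguments

open NumberField MvPolynomial

/-- The coefficients of the power series of a word in `x` (`false`) and `y` (`true`):
`Li_{x w}(z) = ∫₀ᶻ Li_w(t) dt/t`, `Li_{y w}(z) = ∫₀ᶻ Li_w(t) dt/(1-t)`, `Li_() = 1`. -/
def coeffLi : List Bool → ℕ → ℚ
  | [], n => if n = 0 then 1 else 0
  | false :: w, n => coeffLi w n / n
  | true :: w, n => (∑ k ∈ Finset.range n, coeffLi w k) / n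

/-- The polylogarithm of a word, for `|z| < 1`; the word `x^{a₁-1} y ⋯ x^{a_n-1} y` gives
`Li_{a₁,…,a_n}(z,1,…,1) = Σ_{l₁ > … > l_n > 0} z^{l₁} / (l₁^{a₁} ⋯ l_n^{a_n})`. -/
noncomputable def Li (w : List Bool) (z : ℂ) : ℂ := ∑' n : ℕ, ((coeffLi w n : ℚ) : ℂ) * z ^ n

/-- `EndsInY w`: the word `w` is empty or ends in `y`. -/
def EndsInY (w : List Bool) : Prop := w.getLast? ≠ some false

/-- `HeightLe F T x`: `x = a / c` with algebraic integers `a`, `c` of `F`, all of whose conjugates are at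
most `T` in absolute value. -/
def HeightLe (F : Type) [Field F] [NumberField F] (T : ℝ) (x : F) : Prop :=
  ∃ a c : 𝓞 F, c ≠ 0 ∧ (∀ φ : F →+* ℂ, ‖φ a‖ ≤ T ∧ ‖φ c‖ ≤ T) ∧ x = a / c

lemma coeffLi_eq : ∀ (w : List Bool) (n : ℕ), coeffLi w n = Pool.Agent.X142.PL.cc w n
  | [], n => rfl
  | false :: w, n => by rw [coeffLi, Pool.Agent.X142.PL.cc, coeffLi_eq w]
  | true :: w, n => by
    rw [coeffLi, Pool.Agent.X142.PL.cc]
    simp only [coeffLi_eq w]

lemma Li_eq (w : List Bool) (z : ℂ) : Li w z = Pool.Agent.X142.PL.ev ℂ w z := by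
  unfold Li Pool.Agent.X142.PL.ev
  simp only [coeffLi_eq]

lemma adm_iff : ∀ w : List Bool, EndsInY w ↔ Pool.Agent.X142.PL.adm w
  | [] => ⟨fun _ => trivial, fun _ h => by cases h⟩
  | [a] => by
    unfold EndsInY
    show some a ≠ some false ↔ a = true
    cases a <;> simp
  | a :: b :: w => by
    have h := adm_iff (b :: w)
    unfold EndsInY at h ⊢
    rw [List.getLast?_cons_cons]
    exact h

/-- The algebra of the values `Li_{a₁,…,a_n}(x,1,…,1)` at almost all arguments `x`: finitely many of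
them generate in bounded weight, and these are algebraically independent up to polynomial height. -/
theorem result (k : ℕ) : ∃ (κ : Type) (_ : Fintype κ) (a : κ → List Bool), (∀ j, EndsInY (a j)) ∧
    (∀ w, EndsInY w → w.length ≤ k → ∃ G : MvPolynomial κ ℚ, ∀ z : ℂ, z ≠ 0 → ‖z‖ < 1 →
      aeval (fun j => Li (a j) z) G = Li w z) ∧
    ∀ (M : Finset (κ →₀ ℕ)) (L : Set ℂ), IsCompact L → (∀ z ∈ L, z ≠ 0 ∧ ‖z‖ < 1) →
    ∀ (m g : ℕ) (A ε : ℝ), 0 < ε →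
    ∃ B C₁ T₀ : ℝ, ∀ (F : Type) [Field F] [NumberField F], Module.finrank ℚ F ≤ m →
      ∀ (ι : F →+* ℂ) (ξ : Fin g → ℂ) (T : ℝ), T₀ ≤ T →
      ∃ X : Finset F, (X.card : ℝ) ≤ C₁ * T ^ ε ∧ ∀ x : F, ι x ∈ L → HeightLe F T x → x ∉ X →
        ∀ c : (κ →₀ ℕ) → Fin g → 𝓞 F, (∀ d ∈ M, ∀ i (φ : F →+* ℂ), ‖φ (c d i)‖ ≤ T ^ A) →
          ∀ d₀ ∈ M, T ^ (-B) * ‖∑ i, ξ i * ι (c d₀ i)‖ ≤
            ‖∑ d ∈ M, (∑ i, ξ i * ι (c d i)) * d.prod fun j e => Li (a j) (ι x) ^ e‖ := by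
  simp only [Li_eq, adm_iff]
  exact Pool.Agent.X142.PL.gens k

end Pool.Agent.Results.MP_528be1_nt.PolylogarithmArguments
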