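import Pool.Agent.X27.MZ.Amp

/-!
# The dimensions of multiple Clausen values: all weights, or a failure for a positive proportion

Let `W_w` be the space `C_w` of the multiple Clausen values of weight `w`, or the space `Z_w(2)` of the alternating
multiple zeta values of weight `w`. It is conjectured that `dim W_w = F_{w+1}` (Fibonacci numbers).

Theorem.
* If `dim W_m ≠ F_{m+1}` then `dim W_{m+k} ≤ F_{m+k+1} - F_{k+1}` for all `k ≥ 0`.
* So then the conjecture fails in all weights `n ≥ m`, and `dim W_n ≤ (1 - 2^{-m}) F_{n+1}`.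
* So if the conjecture holds in some weight then it holds in all smaller weights; it holds in all weights if (and
  only if) it holds in infinitely many weights, and even if `limsup dim W_n / F_{n+1} = 1`.

Input: the theorem of Deligne (2010, the cases `N = 2` and `N = 6`): the motivic versions of the numbers of weight `w`
span the part of weight `w`, of dimension `F_{w+1}`, of a graded algebra without zero divisors, and the period map is
a homomorphism of algebras (structure `Lift`).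
-/

set_option autoImplicit false

open Filter Topology

namespace Pool.Agent.Results.MP_528be1_nt.PositiveProportion

/-- The sum over `L ≥ l_1 > ... > l_n > 0` of `∏ z_j ^ l_j / l_j ^ a_j`; the entries of the list are the
`(a_j, z_j)`. -/
noncomputable def trunc : List (ℕ × ℂ) → ℕ → ℂ
  | [], _ => 1
  | (a, z) :: t, L => ∑ l ∈ Finset.range L, z ^ (l + 1) / ((l : ℂ) + 1) ^ a * trunc t l

/-- The space of the cyclotomic multiple zeta values of weight `w` and level `N`. -/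
noncomputable def Z (N w : ℕ) : Submodule ℚ ℂ :=
  Submodule.span ℚ {x : ℂ | ∃ s : List (ℕ × ℂ), s ≠ [] ∧ (∀ p ∈ s, 1 ≤ p.1 ∧ p.2 ^ N = 1) ∧
    s.head? ≠ some (1, 1) ∧ (s.map Prod.fst).sum = w ∧ Tendsto (trunc s) atTop (𝓝 x)}

/-- `e^{iπ/3}` -/
noncomputable def ω : ℂ := Complex.exp (Real.pi * Complex.I / 3)

/-- The space of the multiple Clausen values of weight `w`. -/
noncomputable def C (w : ℕ) : Submodule ℚ ℂ :=
  Submodule.span ℚ {x : ℂ | ∃ (a : ℕ) (t : List ℕ), (∀ b ∈ a :: t, 1 ≤ b) ∧ (a :: t).sum = w ∧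
    Tendsto (trunc ((a, ω) :: t.map fun b => (b, 1))) atTop (𝓝 x)}

/-- An algebra without zero divisors, with parts `V w` of dimension `F_{w+1}` which the period map sends onto the
spaces `W w`. -/
structure Lift (W : ℕ → Submodule ℚ ℂ) where
  /-- the algebra -/
  H : Type
  [ring : CommRing H]
  [dom : IsDomain H]
  [alg : Algebra ℚ H]
  /-- the part of weight `w` -/
  V : ℕ → Submodule ℚ H
  /-- the period map -/
  per : H →ₐ[ℚ] ℂ
  mul_mem : ∀ j k x y, x ∈ V j → y ∈ V k → x * y ∈ V (j + k)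
  dim : ∀ w, Module.finrank ℚ (V w) = Nat.fib (w + 1)
  map : ∀ w, 1 ≤ w → (V w).map per.toLinearMap = W w

attribute [instance] Lift.ring Lift.dom Lift.alg

variable {W : ℕ → Submodule ℚ ℂ}

theorem Lift.fin (L : Lift W) (w : ℕ) : FiniteDimensional ℚ (L.V w) :=
  Module.finite_of_finrank_pos (by rw [L.dim]; exact Nat.fib_pos.2 (by omega))

include W in
theorem Lift.amp (L : Lift W) {m : ℕ} (hm1 : 1 ≤ m) (hm : Module.finrank ℚ (W m) ≠ Nat.fib (m + 1))
    (k : ℕ) : Module.finrank ℚ (W (m + k)) + Nat.fib (k + 1) ≤ Nat.fib (m + k + 1) := by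
  have := L.fin
  have h1 : ¬ ∀ x ∈ L.V m, L.per x = 0 → x = 0 := by
    rw [← Pool.Agent.X27.MZ.finrank_map_eq_iff, L.map m hm1, L.dim]
    exact hm
  push Not at h1
  obtain ⟨ξ, hξ, h2, h3⟩ := h1
  have h4 := Pool.Agent.X27.MZ.amplify L.per L.V L.mul_mem hξ h3 h2 k
  rwa [L.map (m + k) (by omega), L.dim, L.dim] at h4

theorem main (L : Lift W) :
    (∀ w, 1 ≤ w → Module.finrank ℚ (W w) ≤ Nat.fib (w + 1)) ∧
    (∀ m k, 1 ≤ m → Module.finrank ℚ (W m) ≠ Nat.fib (m + 1) →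
      Module.finrank ℚ (W (m + k)) + Nat.fib (k + 1) ≤ Nat.fib (m + k + 1)) ∧
    (∀ m n, 1 ≤ m → m ≤ n → Module.finrank ℚ (W m) ≠ Nat.fib (m + 1) →
      (Module.finrank ℚ (W n) : ℝ) ≤ (1 - 1 / 2 ^ m) * Nat.fib (n + 1)) ∧
    (∀ m n, 1 ≤ m → m ≤ n → Module.finrank ℚ (W n) = Nat.fib (n + 1) →
      Module.finrank ℚ (W m) = Nat.fib (m + 1)) ∧
    [∀ w, 1 ≤ w → Module.finrank ℚ (W w) = Nat.fib (w + 1),
      ∀ n, ∃ w, n ≤ w ∧ Module.finrank ℚ (W w) = Nat.fib (w + 1),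
      ∀ ε : ℝ, 0 < ε → ∀ n, ∃ w, n ≤ w ∧
        (1 - ε) * Nat.fib (w + 1) ≤ (Module.finrank ℚ (W w) : ℝ)].TFAE := by
  have := L.fin
  have key : ∀ m n, 1 ≤ m → m ≤ n → Module.finrank ℚ (W m) ≠ Nat.fib (m + 1) →
      (Module.finrank ℚ (W n) : ℝ) ≤ (1 - 1 / 2 ^ m) * Nat.fib (n + 1) := by
    intro m n hm hmn h
    obtain ⟨k, rfl⟩ : ∃ k, n = m + k := ⟨n - m, by omega⟩
    have h1 := L.amp hm h k
    have h2 := Pool.Agent.X27.MZ.fib_le m k
    have h4 : (Module.finrank ℚ (W (m + k)) : ℝ) + Nat.fib (k + 1) ≤ Nat.fib (m + k + 1) := by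
      exact_mod_cast h1
    have h5 : (Nat.fib (m + k + 1) : ℝ) ≤ 2 ^ m * Nat.fib (k + 1) := by exact_mod_cast h2
    have h6 : 1 / 2 ^ m * (Nat.fib (m + k + 1) : ℝ) ≤ Nat.fib (k + 1) := by
      rw [one_div, inv_mul_le_iff₀ (by positivity)]
      exact h5
    linarith
  have key2 : ∀ m n, 1 ≤ m → m ≤ n → Module.finrank ℚ (W n) = Nat.fib (n + 1) →
      Module.finrank ℚ (W m) = Nat.fib (m + 1) := by
    intro m n hm hmn h
    by_contra hne
    obtain ⟨k, rfl⟩ : ∃ k, n = m + k := ⟨n - m, by omega⟩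
    have h1 := L.amp hm hne k
    have h2 : 0 < Nat.fib (k + 1) := Nat.fib_pos.2 (by omega)
    omega
  refine ⟨fun w hw => ?_, fun m k hm h => L.amp hm h k, key, key2, ?_⟩
  · rw [← L.map w hw, ← L.dim w]
    exact Pool.Agent.X27.MZ.finrank_map_le _ _
  tfae_have 1 → 2 := fun h n => ⟨n + 1, by omega, h _ (by omega)⟩
  tfae_have 2 → 3 := by
    intro h ε hε n
    obtain ⟨w, hw, h1⟩ := h n
    refine ⟨w, hw, ?_⟩
    rw [h1]
    have : (0 : ℝ) ≤ Nat.fib (w + 1) := Nat.cast_nonneg _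
    nlinarith
  tfae_have 3 → 1 := by
    intro h m hm
    by_contra hne
    obtain ⟨w, hw, h1⟩ := h (1 / 2 ^ (m + 1)) (by positivity) m
    have h2 := key m w hm hw hne
    have h3 : (0 : ℝ) < Nat.fib (w + 1) := by exact_mod_cast Nat.fib_pos.2 (by omega)
    have h4 : (1 : ℝ) / 2 ^ (m + 1) < 1 / 2 ^ m := by
      apply one_div_lt_one_div_of_lt (by positivity)
      exact pow_lt_pow_right₀ (by norm_num) (by omega)
    nlinarith
  tfae_finish

/-- **The dimensions of multiple Clausen values.** -/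
theorem result (L₂ : Lift (Z 2)) (L₆ : Lift C) :
    (∀ W : ℕ → Submodule ℚ ℂ, W = Z 2 ∨ W = C →
      (∀ w, 1 ≤ w → Module.finrank ℚ (W w) ≤ Nat.fib (w + 1)) ∧
      (∀ m k, 1 ≤ m → Module.finrank ℚ (W m) ≠ Nat.fib (m + 1) →
        Module.finrank ℚ (W (m + k)) + Nat.fib (k + 1) ≤ Nat.fib (m + k + 1)) ∧
      (∀ m n, 1 ≤ m → m ≤ n → Module.finrank ℚ (W m) ≠ Nat.fib (m + 1) →
        (Module.finrank ℚ (W n) : ℝ) ≤ (1 - 1 / 2 ^ m) * Nat.fib (n + 1)) ∧
      (∀ m n, 1 ≤ m → m ≤ n → Module.finrank ℚ (W n) = Nat.fib (n + 1) →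
        Module.finrank ℚ (W m) = Nat.fib (m + 1))) ∧
    [∀ w, 1 ≤ w → Module.finrank ℚ (C w) = Nat.fib (w + 1) ∧
        Module.finrank ℚ (Z 2 w) = Nat.fib (w + 1),
      (∀ n, ∃ w, n ≤ w ∧ Module.finrank ℚ (C w) = Nat.fib (w + 1)) ∧
        ∀ n, ∃ w, n ≤ w ∧ Module.finrank ℚ (Z 2 w) = Nat.fib (w + 1),
      ∀ ε : ℝ, 0 < ε → ∀ n,
        (∃ w, n ≤ w ∧ (1 - ε) * Nat.fib (w + 1) ≤ (Module.finrank ℚ (C w) : ℝ)) ∧
        ∃ w, n ≤ w ∧ (1 - ε) * Nat.fib (w + 1) ≤ (Module.finrank ℚ (Z 2 w) : ℝ)].TFAE := by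
  obtain ⟨a1, a2, a3, a4, a5⟩ := main L₂
  obtain ⟨b1, b2, b3, b4, b5⟩ := main L₆
  refine ⟨?_, ?_⟩
  · rintro W (rfl | rfl)
    · exact ⟨a1, a2, a3, a4⟩
    · exact ⟨b1, b2, b3, b4⟩
  have a12 := a5.out 0 1
  have a13 := a5.out 0 2
  have b12 := b5.out 0 1
  have b13 := b5.out 0 2
  tfae_have 1 ↔ 2 := by
    rw [← a12, ← b12]
    constructor
    · exact fun h => ⟨fun w hw => (h w hw).1, fun w hw => (h w hw).2⟩
    · exact fun h w hw => ⟨h.1 w hw, h.2 w hw⟩
  tfae_have 1 ↔ 3 := by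
    constructor
    · exact fun h ε hε n => ⟨b13.1 (fun w hw => (h w hw).1) ε hε n,
        a13.1 (fun w hw => (h w hw).2) ε hε n⟩
    · exact fun h w hw => ⟨b13.2 (fun ε hε n => (h ε hε n).1) w hw,
        a13.2 (fun ε hε n => (h ε hε n).2) w hw⟩
  tfae_finish

end Pool.Agent.Results.MP_528be1_nt.PositiveProportion
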