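import Pool.Agent.Results.MP_528be1_nt.PolylogarithmArguments
import Pool.Agent.X174.MasterTup
import Pool.Agent.X174.InvInd

/-!
# Multiple polylogarithms at ALL simultaneous approximations of `n` numbers

Let `Li_w(z)` be the multiple polylogarithm of a word `w` in `x`, `y` (with last letter `y`); the words
`x^(a_1 - 1) y ⋯ x^(a_r - 1) y` give `Li_{a_1, …, a_r}(z, 1, …, 1)`, for `z = e^(π i / 3)` the multiple Clausen values. For every
`k` there are finitely many words `a_i` such that each `Li_w`, `w` of length at most `k`, is a rational polynomial in the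
`Li_{a_i}`, on `0 < |z| < 1`, and such that:

for all `n ≥ 1`, `m` and every `ω > 0` there is ONE set `E ⊂ ℂ^n` of Hausdorff dimension at most `2 m (n - 1) / ω` (dimension
`0` for `n = 1`) such that for all `x ∈ ℂ^n` outside `E` with `0 < |x_j| < 1`, all number fields `F ⊂ ℂ` of degree at most `m`,
all `d` and `A` there are `B` and `T₁` such that for all `T ≥ T₁` and ALL simultaneous approximations `t ∈ F^n` of `x`, of height
at most `T`, with `|t_j - x_j| ≤ T ^ (-ω)` for all `j`, the numbers `Li_{a_i}(t_j)`, for all `i` and `j` together, satisfy no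
relation of degree at most `d` with coefficients which are polynomials of degree at most `d` in the `t_j` and in given complex
numbers `ξ_s`, with coefficients in the integers of `F` of height at most `T ^ A`, not even up to `T ^ (-B)`. For
`ω > 2 m (n - 1) / n` almost all real `x` are outside `E`. Some exceptions are unavoidable for `n ≥ 2`: `x_1 = x_2`.

The generators and their algebraic independence over `ℂ(z)` are from helper142's `PolylogarithmArguments`, which has one point
`x` outside exceptional sets of at most `C T ^ ε` elements of each height.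
-/

set_option autoImplicit false

open MeasureTheory NumberField MvPolynomial

namespace Pool.Agent.Results.MP_528be1_nt.SimultaneousApproximations

open Pool.Agent.X39.Near (Size)
open Pool.Agent.X174.NearTup (DependentT coefAtT)
open PolylogarithmArguments (Li EndsInY)
open Pool.Agent.X142.PL (ev F Om)

lemma mem_Om {z : ℂ} (hz0 : z ≠ 0) (hz1 : ‖z‖ < 1) : z⁻¹ ∈ Om := by
  show 1 < ‖z⁻¹‖
  rw [norm_inv]
  exact (one_lt_inv₀ (norm_pos_iff.2 hz0)).2 hz1

lemma F_inv (w : List Bool) (z : ℂ) : F w z⁻¹ = Li w z := by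
  rw [PolylogarithmArguments.Li_eq, F, inv_inv]

lemma Li_analytic (w : List Bool) {z : ℂ} (hz0 : z ≠ 0) (hz1 : ‖z‖ < 1) : AnalyticAt ℂ (Li w) z := by
  have h1 : AnalyticAt ℂ (F w) z⁻¹ := Pool.Agent.X142.PL.F_analytic w (mem_Om hz0 hz1)
  have h2 : AnalyticAt ℂ (fun z : ℂ => z⁻¹) z := analyticAt_inv hz0
  have h3 : AnalyticAt ℂ (fun z : ℂ => F w z⁻¹) z := AnalyticAt.fun_comp (f := fun z : ℂ => z⁻¹) h1 h2
  have h4 : (fun z : ℂ => F w z⁻¹) = Li w := by
    funext z
    exact F_inv w z
  rwa [h4] at h3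

/-- **Theorem.** Let `k ≥ 0`. There are finitely many words `a_i` such that (1) for each word `w` of length at most `k` there is
a rational polynomial `G` with `Li_w(z) = G((Li_{a_i}(z))_i)` for `0 < |z| < 1`; (2) for all `n ≥ 1`, `m`, complex numbers
`ξ_1, …, ξ_g` and `ω > 0` there is a set `E ⊂ ℂ^n` of Hausdorff dimension at most `2 m (n - 1) / ω`, which contains almost no
real point if `2 m (n - 1) < n ω`, such that for all `x` outside `E` with `0 < |x_j| < 1`, all number fields `F` of degree at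
most `m` with an embedding `ι` in `ℂ` and all `d`, `A` there are `B`, `T₁` such that for all `T ≥ T₁` and all `t ∈ F^n`,
quotients of integers with conjugates at most `T`, with `|ι t_j - x_j| ≤ T ^ (-ω)` for all `j`, the numbers `Li_{a_i}(t_j)` are
not dependent: there is no polynomial in them of degree at most `d` in each variable, with coefficients which are polynomials of
degree at most `d` in each of the `t_j` and `ξ_s`, with coefficients in the integers of `F` with conjugates at most `T ^ A`, and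
value at most `T ^ (-B)` times some nonzero coefficient. -/
theorem result (k : ℕ) : ∃ (κ : Type) (_ : Fintype κ) (a : κ → List Bool), (∀ i, EndsInY (a i)) ∧
    (∀ w, EndsInY w → w.length ≤ k → ∃ G : MvPolynomial κ ℚ, ∀ z : ℂ, z ≠ 0 → ‖z‖ < 1 →
      aeval (fun i => Li (a i) z) G = Li w z) ∧
    ∀ (n : ℕ), 1 ≤ n → ∀ (m g : ℕ) (ξ : Fin g → ℂ) (ω : ℝ), 0 < ω →
    ∃ E : Set (Fin n → ℂ), dimH E ≤ ENNReal.ofReal (2 * m * ((n : ℝ) - 1) / ω) ∧
      (2 * m * ((n : ℝ) - 1) < n * ω → ∀ᵐ x : Fin n → ℝ, (fun j => (x j : ℂ)) ∉ E) ∧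
      ∀ x : Fin n → ℂ, (∀ j, x j ≠ 0 ∧ ‖x j‖ < 1) → x ∉ E → ∀ (F : Type) [Field F] [NumberField F],
        Module.finrank ℚ F ≤ m → ∀ (ι : F →+* ℂ) (d A : ℕ), ∃ B T₁ : ℝ, ∀ T : ℝ, T₁ ≤ T → ∀ t : Fin n → F,
          (∀ j, Size F T (t j)) → (∀ j, ‖ι (t j) - x j‖ ≤ T ^ (-ω)) →
            ¬ DependentT (fun _ i z => Li (a i) z) (fun _ (_ : Fin 1) => Polynomial.X) (fun _ => 1) ξ F ι d A B T t := by
  obtain ⟨κ, hκ, a, ha, hind, hgen⟩ := Pool.Agent.X142.PL.exists_generators k
  refine ⟨κ, hκ, a, fun i => (PolylogarithmArguments.adm_iff (a i)).2 (ha i), fun w hw hk => ?_,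
    fun n hn m g ξ ω hω => ?_⟩
  · obtain ⟨G, hG⟩ := hgen w ((PolylogarithmArguments.adm_iff w).1 hw) (by
      rw [Pool.Agent.X142.PL.wt_eq_length]
      exact hk)
    refine ⟨G, fun z hz0 hz1 => ?_⟩
    have h1 := congrFun hG ⟨z⁻¹, mem_Om hz0 hz1⟩
    have h3 := MvPolynomial.comp_aeval_apply (R := ℚ) (fun j => Pool.Agent.X142.PL.Fo (a j))
      (Pi.evalAlgHom ℚ (fun _ : Om => ℂ) ⟨z⁻¹, mem_Om hz0 hz1⟩) G
    have h4 : (fun j => Li (a j) z) = fun j => F (a j) z⁻¹ := by
      funext j
      rw [F_inv]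
    rw [h4, ← F_inv w z]
    refine Eq.trans ?_ h1
    exact h3.symm
  · have hopen : IsOpen {z : ℂ | z ≠ 0 ∧ ‖z‖ < 1} :=
      isOpen_ne.inter (isOpen_lt continuous_norm continuous_const)
    exact Pool.Agent.X174.NearTup.masterTup hn m (fun _ => {z : ℂ | z ≠ 0 ∧ ‖z‖ < 1}) (fun _ => hopen)
      (fun _ i z => Li (a i) z) (fun _ i t ht => Li_analytic (a i) ht.1 ht.2)
      (fun _ t ht => by
        have h1 := Pool.Agent.X174.locInd_inv (f := fun i z => F (a i) z) ht.1 (hind t⁻¹ (mem_Om ht.1 ht.2))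
        have h4 : (fun (i : κ) (z : ℂ) => F (a i) z⁻¹) = fun (i : κ) (z : ℂ) => Li (a i) z := by
          funext i z
          exact F_inv (a i) z
        rwa [h4] at h1)
      (fun _ _ => Polynomial.X) (fun _ => 1) (fun _ t _ => by simp) ξ hω

end Pool.Agent.Results.MP_528be1_nt.SimultaneousApproximations
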