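import Mathlib
import Pool.Agent.X90.DM.Mcv

/-!
# MP_528be1_nt: small relations between multiple Clausen or alternating values are not sporadic

Words are lists `(a_1, z_1), ..., (a_n, z_n)` of arguments of multiple polylogarithms at roots of
unity, in which one exponent is variable: `a_j = s_i + b`, where `s_1, ..., s_k` are the variables.
For example all multiple Clausen values of weight `w` with an argument `≥ w - W` are of this kind, with
`s_1 = w - W`, and so are the alternating multiple zeta values. For finitely many such words and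
arbitrary complex numbers `x_1, ..., x_t`, for almost all tuples `s` up to `N` every polynomial relation of
bounded degree and of height `exp (δ N)` between the values and the numbers `x` is an identity in `s`.

Moreover, for ALL large weights `w` and for `z ^ 6 = 1` the real parts of the `2 ^ W` values
`Li_{w - |u|, u}(z, 1, ..., 1)`, `u` a composition of a number `|u| ≤ W`, satisfy no linear relation with
integer coefficients of absolute value at most `exp (c w)`. For `z = exp (π i / 3)` these are multiple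
Clausen values, for `z = -1` alternating multiple zeta values.

Helper files: `Pool.Agent.X90.DM` (families of Dirichlet series at the same arguments; elimination of
the constants by pairs of tuples; Dirichlet series for the values; linear independence of the nested
harmonic sums over the rational functions).
-/

set_option autoImplicit false

namespace Pool.Agent.Results.MP_528be1_nt.SmallRelations

open Filter Topology

/-- `trunc [(a_1, z_1), ..., (a_r, z_r)] m` is the sum of `∏ z_j ^ l_j / l_j ^ a_j` over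
`m > l_1 > ... > l_r ≥ 1` -/
noncomputable def trunc : List (ℕ × ℂ) → ℕ → ℂ
  | [], _ => 1
  | p :: l, m => ∑ j ∈ Finset.Ico 1 m, p.2 ^ j / (j : ℂ) ^ p.1 * trunc l j

/-- the multiple polylogarithm `Li_{a_1, ..., a_r}(z_1, ..., z_r)`, the limit of the truncated sums -/
noncomputable def li (w : List (ℕ × ℂ)) : ℂ := limUnder atTop (trunc w)

/-- a word in which one exponent is variable: `pre`, then the entry `(s_var + b, z)`, then `post` -/
structure Word (k : ℕ) where
  /-- the entries before the variable one -/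
  pre : List (ℕ × ℂ)
  /-- the number of the variable -/
  var : Fin k
  /-- the shift of the exponent -/
  b : ℕ
  /-- the root of unity at the variable entry -/
  z : ℂ
  /-- the entries after the variable one -/
  post : List (ℕ × ℂ)

/-- the word at `s` -/
def Word.at {k : ℕ} (v : Word k) (s : Fin k → ℕ) : List (ℕ × ℂ) :=
  v.pre ++ (s v.var + v.b, v.z) :: v.post

/-- all the numbers `z` are `n`-th roots of unity, and the sums belonging to the initial parts of `pre`
converge (that is, the first entry of `pre`, if there is one, is not `(1, 1)`) -/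
def Word.Ok {k : ℕ} (n : ℕ) (v : Word k) : Prop :=
  (∀ p ∈ v.pre, p.2 ^ n = 1) ∧ v.z ^ n = 1 ∧ (∀ p ∈ v.post, p.2 ^ n = 1) ∧
    ∀ q, q <+: v.pre → ∃ c : ℂ, Tendsto (trunc q) atTop (𝓝 c)

/-- There is an integer polynomial `P(X, Y)` of total degree `≤ D` with coefficients in absolute value
`≤ exp h` such that `P(x, y(s)) = 0`, but not `P(x, y(s')) = 0` for all `s'` with entries `≥ s0`. -/
def Sporadic {t r k : ℕ} (D : ℕ) (h : ℝ) (s0 : ℕ) (x : Fin t → ℂ) (y : (Fin k → ℕ) → Fin r → ℂ)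
    (s : Fin k → ℕ) : Prop :=
  ∃ P : MvPolynomial (Fin t ⊕ Fin r) ℤ, P.totalDegree ≤ D ∧
    (∀ m, |((P.coeff m : ℤ) : ℝ)| ≤ Real.exp h) ∧
    MvPolynomial.aeval (Sum.elim x (y s)) P = 0 ∧
    ∃ s' : Fin k → ℕ, (∀ i, s0 ≤ s' i) ∧ MvPolynomial.aeval (Sum.elim x (y s')) P ≠ 0

theorem first (t k r D n : ℕ) (hk : 1 ≤ k) (hn : 1 ≤ n) (x : Fin t → ℂ) (v : Fin r → Word k)
    (hv : ∀ j, (v j).Ok n) (s0 : ℕ) (hs0 : ∀ j, (v j).pre.length + (v j).post.length + 3 ≤ s0)
    (hs1 : 3 ≤ s0) (ε : ℝ) (hε : 0 < ε) : ∃ δ : ℝ, 0 < δ ∧ ∃ N0 : ℕ, ∀ N : ℕ, N0 ≤ N →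
      ({s : Fin k → ℕ | (∀ i, s0 ≤ s i ∧ s i ≤ N) ∧
        Sporadic D (δ * N) s0 x (fun s j => li ((v j).at s)) s}.ncard : ℝ) ≤ ε * (N : ℝ) ^ k := by
  classical
  have htr : ∀ w m, trunc w m = Pool.Agent.X90.DM.trunc w m := by
    intro w
    induction w with
    | nil => intro m; rw [trunc, Pool.Agent.X90.DM.trunc]
    | cons p w ih =>
      intro m
      rw [trunc, Pool.Agent.X90.DM.trunc]
      exact Finset.sum_congr rfl fun j _ => by rw [ih]
  have htr' : ∀ w, trunc w = Pool.Agent.X90.DM.trunc w := fun w => funext (htr w)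
  have hli : ∀ w, li w = Pool.Agent.X90.DM.li w := by
    intro w
    rw [li, Pool.Agent.X90.DM.li, htr']
  have hY : ∀ j, Pool.Agent.X90.DM.Cl (s0 - 1)
      fun s => li ((v j).pre ++ (s + (v j).b, (v j).z) :: (v j).post) := by
    intro j
    obtain ⟨h1, h2, h3, h4⟩ := hv j
    have h5 := Pool.Agent.X90.DM.Cl_li hn (v j).pre (v j).post (v j).b (v j).z h2 h1 (by
      intro q hq
      obtain ⟨c, hc⟩ := h4 q hq
      rw [htr'] at hc
      exact ⟨c, hc⟩) h3
    refine (h5.mono (by have := hs0 j; omega)).congr fun s _ => ?_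
    rw [hli]
  obtain ⟨δ, hδ, N0, h⟩ := Pool.Agent.X90.DM.gen t k r D hk (s0 - 1) x (fun j => (v j).var)
    (fun j s => li ((v j).pre ++ (s + (v j).b, (v j).z) :: (v j).post)) hY ε hε
  refine ⟨δ, hδ, N0, fun N hN => ?_⟩
  refine le_trans ?_ (h N hN)
  have hs : s0 - 1 + 1 = s0 := by omega
  rw [hs]
  refine Nat.cast_le.2 (Set.ncard_le_ncard ?_ ?_)
  · rintro s ⟨h1, P, h2, h3, h4, s', h5, h6⟩
    exact ⟨h1, P, h2, h3, h4, fun h7 => h6 (h7 s' h5)⟩
  · refine Set.Finite.subset (Set.Finite.pi' fun _ : Fin k => Set.finite_Iic N) ?_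
    rintro s ⟨h1, -⟩ i
    exact (h1 i).2

lemma trunc_map (u : List ℕ) : ∀ m, trunc (u.map fun a => (a, (1 : ℂ))) m = Pool.Agent.X90.DM.hs u m := by
  induction u with
  | nil => intro m; rw [List.map_nil, trunc, Pool.Agent.X90.DM.hs]
  | cons a u ih =>
    intro m
    rw [List.map_cons, trunc, Pool.Agent.X90.DM.hs]
    refine Finset.sum_congr rfl fun j _ => ?_
    rw [ih, one_pow]

lemma li_mu {z : ℂ} (hz : ‖z‖ ≤ 1) {e : ℕ} {u : List ℕ} (he : u.length + 2 ≤ e) :
    li ((e, z) :: u.map fun a => (a, (1 : ℂ))) = Pool.Agent.X90.DM.mu z e u := by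
  rw [li]
  refine Tendsto.limUnder_eq ?_
  have h1 := (Pool.Agent.X90.DM.summ_mu hz he).hasSum.tendsto_sum_nat
  rw [← tendsto_add_atTop_iff_nat 1]
  refine Tendsto.congr (fun L => ?_) h1
  rw [trunc, Finset.sum_Ico_eq_sum_range, Nat.add_sub_cancel]
  refine Finset.sum_congr rfl fun n _ => ?_
  rw [trunc_map, add_comm 1 n]

theorem second (W : ℕ) (z : ℂ) (hz : z ^ 6 = 1) : ∃ c : ℝ, 0 < c ∧ ∃ w0 : ℕ, ∀ w : ℕ, w0 ≤ w →
    ∀ a : List ℕ →₀ ℤ, (∀ u ∈ a.support, (∀ t ∈ u, 1 ≤ t) ∧ u.sum ≤ W) → a ≠ 0 →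
      (∀ u, |(a u : ℝ)| ≤ Real.exp (c * w)) →
      ∑ u ∈ a.support, (a u : ℝ) * (li ((w - u.sum, z) :: u.map fun t => (t, (1 : ℂ)))).re ≠ 0 := by
  classical
  have hzn : ‖z‖ = 1 := by
    have h1 : ‖z‖ ^ 6 = 1 := by rw [← norm_pow, hz, norm_one]
    exact (pow_eq_one_iff_of_nonneg (norm_nonneg _) (by norm_num)).1 h1
  obtain ⟨c, hc, w0, h⟩ := Pool.Agent.X90.DM.allw W z hz
  refine ⟨c, hc, max w0 (2 * W + 2), fun w hw a ha ha0 hac => ?_⟩
  have hw1 : w0 ≤ w := (le_max_left _ _).trans hw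
  have hw2 : 2 * W + 2 ≤ w := (le_max_right _ _).trans hw
  have hsub : a.support ⊆ Pool.Agent.X90.DE.rs W := fun u hu => Pool.Agent.X90.DE.mem_rs.2 (ha u hu)
  have h1 := h w hw1 a (by
    obtain ⟨u, hu⟩ := Finsupp.ne_iff.1 ha0
    have hu' : a u ≠ 0 := hu
    exact ⟨u, hsub (Finsupp.mem_support_iff.2 hu'), hu'⟩) (fun u _ => hac u)
  rw [← Finset.sum_subset hsub fun u _ hu => by
    rw [Finsupp.notMem_support_iff.1 hu, Int.cast_zero, zero_mul]] at h1
  intro h2
  apply h1
  rw [← h2]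
  refine Finset.sum_congr rfl fun u hu => ?_
  obtain ⟨h3, h4⟩ := ha u hu
  have h5 := Pool.Agent.X90.DM.len_le_sum h3
  rw [li_mu hzn.le (by omega)]

/-- (1) Let `v_1, ..., v_r` be words in `k` variables `s_1, ..., s_k` at `n`-th roots of unity, with at
most `s0 - 2` entries each, and let `x_1, ..., x_t` be complex numbers. For all `D` and `ε > 0` there are
`δ > 0` and `N0` such that for `N ≥ N0` at most `ε N ^ k` of the tuples `s` with `s0 ≤ s_i ≤ N` have a
sporadic relation of degree `≤ D` and height `≤ exp (δ N)` between the values of the words and the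
numbers `x`.
(2) Let `z ^ 6 = 1`. For every `W` there are `c > 0` and `w0` such that for all weights `w ≥ w0` there is
no linear relation with integer coefficients, not all zero, in absolute value at most `exp (c w)`,
between the real parts of the values `Li_{w - |u|, u}(z, 1, ..., 1)`, where `u` runs through the lists of
positive integers with sum `|u| ≤ W`. -/
theorem result :
    (∀ (t k r D n : ℕ), 1 ≤ k → 1 ≤ n → ∀ (x : Fin t → ℂ) (v : Fin r → Word k), (∀ j, (v j).Ok n) →
      ∀ s0 : ℕ, (∀ j, (v j).pre.length + (v j).post.length + 3 ≤ s0) → 3 ≤ s0 → ∀ ε : ℝ, 0 < ε →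
      ∃ δ : ℝ, 0 < δ ∧ ∃ N0 : ℕ, ∀ N : ℕ, N0 ≤ N →
        ({s : Fin k → ℕ | (∀ i, s0 ≤ s i ∧ s i ≤ N) ∧
          Sporadic D (δ * N) s0 x (fun s j => li ((v j).at s)) s}.ncard : ℝ) ≤ ε * (N : ℝ) ^ k) ∧
    (∀ (W : ℕ) (z : ℂ), z ^ 6 = 1 → ∃ c : ℝ, 0 < c ∧ ∃ w0 : ℕ, ∀ w : ℕ, w0 ≤ w →
      ∀ a : List ℕ →₀ ℤ, (∀ u ∈ a.support, (∀ t ∈ u, 1 ≤ t) ∧ u.sum ≤ W) → a ≠ 0 →
        (∀ u, |(a u : ℝ)| ≤ Real.exp (c * w)) →
        ∑ u ∈ a.support, (a u : ℝ) * (li ((w - u.sum, z) :: u.map fun t => (t, (1 : ℂ)))).re ≠ 0) :=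
  ⟨first, second⟩

end Pool.Agent.Results.MP_528be1_nt.SmallRelations
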